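import Mathlib

/-!
MP_1ee7a3_al, Q1: propermutability does not pass to intermediate subgroups. There is a group `G` of
order `32` with subgroups `A ≤ B`, `|A| = 2`, `|B| = 16`, such that `A` is propermutable in `G` but
not in `B`.
-/

namespace Pool.Agent.Results.MP_1ee7a3_al.NotInherited

open scoped Pointwise

/-- `H` is propermutable in the ambient group `G`: there is a subgroup `T` with `G = N_G(H) T` and
`H K = K H` for all subgroups `K ≤ T`. -/
def Propermutable {G : Type} [Group G] (H : Subgroup G) : Prop :=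
  ∃ T : Subgroup G, (Subgroup.normalizer (H : Set G) : Set G) * (T : Set G) = Set.univ ∧
    ∀ K : Subgroup G, K ≤ T → (H : Set G) * (K : Set G) = (K : Set G) * (H : Set G)

/-- The underlying set of the group of order `32`: `(i, j, k, l)` stands for
`a ^ i * c ^ j * z ^ k * s ^ l`. -/
def E : Type := ZMod 2 × ZMod 4 × ZMod 2 × ZMod 2

instance : DecidableEq E := inferInstanceAs (DecidableEq (ZMod 2 × ZMod 4 × ZMod 2 × ZMod 2))
instance : Fintype E := inferInstanceAs (Fintype (ZMod 2 × ZMod 4 × ZMod 2 × ZMod 2))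

/-- `a² = c⁴ = z² = 1`, `[c, a] = z` and `s` are central, `s² = c² z`. -/
instance : Mul E := ⟨fun x y => (x.1 + y.1,
  x.2.1 + y.2.1 + 2 * (x.2.2.2.val * y.2.2.2.val : ℕ),
  x.2.2.1 + y.2.2.1 + (x.2.1.val * y.1.val : ℕ) + x.2.2.2 * y.2.2.2,
  x.2.2.2 + y.2.2.2)⟩

instance : One E := ⟨((0, 0, 0, 0) : ZMod 2 × ZMod 4 × ZMod 2 × ZMod 2)⟩

/-- powers, used only for the inverse -/
instance : Inv E := ⟨fun x => x * x * x⟩

theorem aux2 : ∀ u v w : ZMod 2, (2 * (u.val * v.val : ℕ) : ZMod 4) +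
    2 * ((u + v).val * w.val : ℕ) = 2 * (v.val * w.val : ℕ) + 2 * (u.val * (v + w).val : ℕ) := by
  decide +kernel

theorem aux3 : ∀ (xj yj : ZMod 4) (xl yl zl yi zi : ZMod 2),
    ((xj.val * yi.val : ℕ) : ZMod 2) + xl * yl +
      (((xj + yj + 2 * (xl.val * yl.val : ℕ)).val * zi.val : ℕ) : ZMod 2) + (xl + yl) * zl =
    ((yj.val * zi.val : ℕ) : ZMod 2) + yl * zl + ((xj.val * (yi + zi).val : ℕ) : ZMod 2) +
      xl * (yl + zl) := by
  decide +kernel

theorem E_assoc (x y z : E) : x * y * z = x * (y * z) := by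
  refine Prod.ext (add_assoc _ _ _) (Prod.ext ?_ (Prod.ext ?_ (add_assoc _ _ _)))
  · change x.2.1 + y.2.1 + 2 * (x.2.2.2.val * y.2.2.2.val : ℕ) + z.2.1 +
      2 * ((x.2.2.2 + y.2.2.2).val * z.2.2.2.val : ℕ) =
      x.2.1 + (y.2.1 + z.2.1 + 2 * (y.2.2.2.val * z.2.2.2.val : ℕ)) +
      2 * (x.2.2.2.val * (y.2.2.2 + z.2.2.2).val : ℕ)
    linear_combination aux2 x.2.2.2 y.2.2.2 z.2.2.2
  · change x.2.2.1 + y.2.2.1 + ((x.2.1.val * y.1.val : ℕ) : ZMod 2) + x.2.2.2 * y.2.2.2 +
      z.2.2.1 + (((x.2.1 + y.2.1 + 2 * (x.2.2.2.val * y.2.2.2.val : ℕ)).val * z.1.val : ℕ) :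
        ZMod 2) + (x.2.2.2 + y.2.2.2) * z.2.2.2 =
      x.2.2.1 + (y.2.2.1 + z.2.2.1 + ((y.2.1.val * z.1.val : ℕ) : ZMod 2) +
        y.2.2.2 * z.2.2.2) + ((x.2.1.val * (y.1 + z.1).val : ℕ) : ZMod 2) +
      x.2.2.2 * (y.2.2.2 + z.2.2.2)
    linear_combination aux3 x.2.1 y.2.1 x.2.2.2 y.2.2.2 z.2.2.2 y.1 z.1

instance : Group E := Group.ofLeftAxioms E_assoc (by decide +kernel) (by decide +kernel)

/-- the generator of `A` -/
def a : E := ((1, 0, 0, 0) : ZMod 2 × ZMod 4 × ZMod 2 × ZMod 2)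

/-- the generator of `T` -/
def t : E := ((0, 1, 0, 1) : ZMod 2 × ZMod 4 × ZMod 2 × ZMod 2)

theorem aa : a * a = 1 := by decide +kernel

/-- the subgroup of order two -/
def A : Subgroup E where
  carrier := {x | x = 1 ∨ x = a}
  mul_mem' := by
    rintro x y (rfl | rfl) (rfl | rfl)
    · left; rfl
    · right; rw [one_mul]
    · right; rw [mul_one]
    · left; exact aa
  one_mem' := Or.inl rfl
  inv_mem' := by
    rintro x (rfl | rfl)
    · left; rw [inv_one]
    · right; exact inv_eq_of_mul_eq_one_right aa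

/-- the subgroup of order `16` of all elements without `s` -/
def B : Subgroup E where
  carrier := {x | x.2.2.2 = 0}
  mul_mem' := by
    intro x y hx hy
    change x.2.2.2 + y.2.2.2 = 0
    rw [show x.2.2.2 = 0 from hx, show y.2.2.2 = 0 from hy, add_zero]
  one_mem' := rfl
  inv_mem' := by
    intro x hx
    have : ∀ x : E, x.2.2.2 = 0 → (x * x * x).2.2.2 = 0 := by decide +kernel
    exact this x hx

theorem A_le_B : A ≤ B := by
  rintro x (rfl | rfl)
  · exact B.one_mem
  · rfl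

theorem mem_norm_iff (x : E) : x ∈ Subgroup.normalizer (A : Set E) ↔ x * a = a * x := by
  rw [Subgroup.mem_normalizer_iff]
  constructor
  · intro h
    rcases (h a).1 (Or.inr rfl) with h1 | h1
    · exfalso
      have h2 : a = 1 := by
        have : x * a = x := by
          have h3 := mul_inv_eq_iff_eq_mul.1 h1
          rwa [one_mul] at h3
        simpa using this
      exact absurd h2 (by decide +kernel)
    · rw [mul_inv_eq_iff_eq_mul] at h1
      exact h1
  · intro h y
    have key : ∀ g : E, x * g * x⁻¹ = 1 ↔ g = 1 := fun g => by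
      rw [mul_inv_eq_iff_eq_mul, one_mul]; exact mul_eq_left
    have key2 : x * y * x⁻¹ = a ↔ y = a := by
      rw [mul_inv_eq_iff_eq_mul, ← h]; exact mul_left_cancel_iff
    constructor
    · rintro (h1 | h1)
      · exact Or.inl ((key y).2 h1)
      · exact Or.inr (key2.2 h1)
    · rintro (h1 | h1)
      · exact Or.inl ((key y).1 h1)
      · exact Or.inr (key2.1 h1)

theorem conj_t : a * t * a⁻¹ = t⁻¹ := by decide +kernel

theorem conj_T {k : E} (hk : k ∈ Subgroup.zpowers t) : a * k * a⁻¹ = k⁻¹ := by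
  obtain ⟨m, rfl⟩ := Subgroup.mem_zpowers_iff.1 hk
  rw [← conj_zpow, conj_t, inv_zpow]

theorem prop_G : Propermutable A := by
  refine ⟨Subgroup.zpowers t, ?_, ?_⟩
  · rw [Set.eq_univ_iff_forall]
    intro g
    have h : ∀ g : E, g * a = a * g ∨ (g * t⁻¹) * a = a * (g * t⁻¹) := by decide +kernel
    rcases h g with h | h
    · exact Set.mem_mul.2 ⟨g, (mem_norm_iff g).2 h, 1, Subgroup.one_mem _, mul_one g⟩
    · exact Set.mem_mul.2 ⟨g * t⁻¹, (mem_norm_iff _).2 h, t, Subgroup.mem_zpowers t,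
        inv_mul_cancel_right g t⟩
  · intro K hK
    ext g
    simp only [Set.mem_mul, SetLike.mem_coe]
    constructor
    · rintro ⟨x, hx, k, hk, rfl⟩
      rcases hx with rfl | rfl
      · exact ⟨k, hk, 1, Or.inl rfl, by simp⟩
      · refine ⟨k⁻¹, K.inv_mem hk, a, Or.inr rfl, ?_⟩
        rw [← conj_T (hK hk), inv_mul_cancel_right]
    · rintro ⟨k, hk, x, hx, rfl⟩
      rcases hx with rfl | rfl
      · exact ⟨1, Or.inl rfl, k, hk, by simp⟩
      · refine ⟨a, Or.inr rfl, k⁻¹, K.inv_mem hk, ?_⟩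
        have := conj_T (hK (K.inv_mem hk))
        rw [inv_inv] at this
        calc a * k⁻¹ = a * k⁻¹ * a⁻¹ * a := (inv_mul_cancel_right _ _).symm
          _ = k * a := by rw [this]

theorem zpow_cases (x : E) (m : ℤ) : x ^ m = 1 ∨ x ^ m = x ∨ x ^ m = x * x ∨
    x ^ m = x * x * x := by
  have h4 : x ^ 4 = 1 := by
    have : ∀ x : E, x * x * x * x = 1 := by decide +kernel
    rw [← this x]
    simp [pow_succ]
  have h : x ^ m = x ^ (m % 4) := by
    conv_lhs => rw [← Int.emod_add_mul_ediv m 4]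
    rw [zpow_add, zpow_mul]
    have : x ^ (4 : ℤ) = 1 := by exact_mod_cast h4
    rw [this, one_zpow, mul_one]
  have h0 := Int.emod_nonneg m (by norm_num : (4 : ℤ) ≠ 0)
  have h1 := Int.emod_lt_of_pos m (by norm_num : (0 : ℤ) < 4)
  rw [h]
  interval_cases m % 4
  · left; simp
  · right; left; simp
  · right; right; left
    exact_mod_cast pow_two x
  · right; right; right
    have : x ^ 3 = x * x * x := by simp [pow_succ]
    exact_mod_cast this

theorem not_prop_B : ¬ Propermutable (A.subgroupOf B) := by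
  rintro ⟨C, hC, hK⟩
  -- the element `c`
  let c : B := ⟨((0, 1, 0, 0) : ZMod 2 × ZMod 4 × ZMod 2 × ZMod 2), rfl⟩
  have hc : c ∈ (Set.univ : Set B) := Set.mem_univ _
  rw [← hC, Set.mem_mul] at hc
  obtain ⟨n, hn, x, hx, hnx⟩ := hc
  -- `n` commutes with `a`
  let a' : B := ⟨a, rfl⟩
  have ha' : a' ∈ A.subgroupOf B := by
    rw [Subgroup.mem_subgroupOf]; exact Or.inr rfl
  have hna : n * a' = a' * n := by
    have h1 := (Subgroup.mem_normalizer_iff.1 hn a').1 ha'
    rw [Subgroup.mem_subgroupOf] at h1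
    rcases h1 with h1 | h1
    · exfalso
      have h2 : n * a' * n⁻¹ = 1 := Subtype.ext h1
      rw [mul_inv_eq_iff_eq_mul, one_mul, mul_eq_left] at h2
      exact absurd (congrArg Subtype.val h2) (by decide +kernel)
    · have h2 : n * a' * n⁻¹ = a' := Subtype.ext h1
      rwa [mul_inv_eq_iff_eq_mul] at h2
  have hna' : n.1 * a = a * n.1 := congrArg Subtype.val hna
  have hnx' : n.1 * x.1 = ((0, 1, 0, 0) : ZMod 2 × ZMod 4 × ZMod 2 × ZMod 2) :=
    congrArg Subtype.val hnx
  have hxa : x.1 * a ≠ a * x.1 := by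
    intro h
    have h1 : (n.1 * x.1) * a = a * (n.1 * x.1) := by
      rw [mul_assoc, h, ← mul_assoc, hna', mul_assoc]
    rw [hnx'] at h1
    revert h1
    decide +kernel
  -- the cyclic group generated by `x`
  have hperm := hK (Subgroup.zpowers x) (by rwa [Subgroup.zpowers_le])
  have hmem : a' * x ∈ ((A.subgroupOf B : Subgroup B) : Set B) * (Subgroup.zpowers x : Set B) :=
    Set.mem_mul.2 ⟨a', ha', x, Subgroup.mem_zpowers x, rfl⟩
  rw [hperm, Set.mem_mul] at hmem
  obtain ⟨y, hy, w, hw, hyw⟩ := hmem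
  obtain ⟨m, rfl⟩ := Subgroup.mem_zpowers_iff.1 hy
  rw [SetLike.mem_coe, Subgroup.mem_subgroupOf] at hw
  have hyw' : x.1 ^ m * w.1 = a * x.1 := by
    have := congrArg Subtype.val hyw
    simpa using this
  have hxB : x.1.2.2.2 = 0 := x.2
  have fin : ∀ x : E, x.2.2.2 = 0 → x * a ≠ a * x →
      ∀ p : E, (p = 1 ∨ p = x ∨ p = x * x ∨ p = x * x * x) → ∀ w : E, (w = 1 ∨ w = a) →
      p * w ≠ a * x := by
    decide +kernel
  exact fin x.1 hxB hxa _ (zpow_cases x.1 m) w.1 hw hyw'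

/-- There are a finite group `G` and subgroups `A ≤ B` of `G` such that `A` is propermutable in `G`
but `A` is not propermutable in `B`. -/
theorem result : ∃ (G : Type) (_ : Group G) (_ : Finite G) (A B : Subgroup G), A ≤ B ∧
    Propermutable A ∧ ¬ Propermutable (A.subgroupOf B) :=
  ⟨E, inferInstance, inferInstance, A, B, A_le_B, prop_G, not_prop_B⟩

end Pool.Agent.Results.MP_1ee7a3_al.NotInherited
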